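import Pool.Agent.H647R3.AGMore
import Pool.Agent.Q101.Greedy

set_option autoImplicit false

open Filter Topology

namespace Pool.Agent.Results.MP_514f39_an.PermutedExpansions

variable {E : Type} [NormedAddCommGroup E] [NormedSpace ℝ E]

/-- `(x_n)` is a Schauder basis: every vector `v` has exactly one scalar sequence `a` with
`v = ∑ a_n x_n` (norm convergence of the partial sums). -/
def IsSchauderBasis (x : ℕ → E) : Prop :=
  ∀ v : E, ∃! a : ℕ → ℝ,
    Tendsto (fun N => ∑ n ∈ Finset.range N, a n • x n) atTop (𝓝 v)

/-- `v` is the sum of the series with coefficients `a`, taken in the order given by some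
bijection `σ` of `ℕ`. -/
def PermExpansion (x : ℕ → E) (v : E) (a : ℕ → ℝ) : Prop :=
  ∃ σ : Equiv.Perm ℕ,
    Tendsto (fun N => ∑ i ∈ Finset.range N, a (σ i) • x (σ i)) atTop (𝓝 v)

/-- Property (U): every vector has exactly one scalar sequence for which the expansion converges
to it in the order of some bijection. -/
def PropertyU (x : ℕ → E) : Prop := ∀ v : E, ∃! a : ℕ → ℝ, PermExpansion x v a

/-- `(x_n)` is minimal: no `x_m` is in the closed linear span of the others. -/
def IsMinimal (x : ℕ → E) : Prop :=
  ∀ m, x m ∉ closure ((Submodule.span ℝ (x '' {n | n ≠ m}) : Submodule ℝ E) : Set E)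

open Pool.Agent.H647R3 in
/-- There is a (real) separable Banach space with a minimal sequence that has property (U), none
of whose permutations is a Schauder basis. -/
theorem result : ∃ (E : Type) (_ : NormedAddCommGroup E) (_ : NormedSpace ℝ E),
    CompleteSpace E ∧ TopologicalSpace.SeparableSpace E ∧
    ∃ x : ℕ → E, IsMinimal x ∧ PropertyU x ∧
      ∀ τ : Equiv.Perm ℕ, ¬ IsSchauderBasis (fun n => x (τ n)) := by
  have key : ∀ (a : ℕ → ℝ) (σ : Equiv.Perm ℕ) (v : AG.X),
      Tendsto (fun N => ∑ i ∈ Finset.range N, a (σ i) • AG.e (σ i)) atTop (𝓝 v) →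
      ∀ n, a n = AG.e' n v := by
    intro a σ v h n
    have h1 := ((AG.e' n).continuous.tendsto v).comp h
    refine tendsto_nhds_unique (tendsto_const_nhds.congr' ?_) h1
    refine (eventually_gt_atTop (σ.symm n)).mono fun N hN => ?_
    change a n = AG.e' n (∑ i ∈ Finset.range N, a (σ i) • AG.e (σ i))
    rw [map_sum, Finset.sum_eq_single (σ.symm n)]
    · rw [map_smul, AG.biorth]; simp
    · intro b _ hb
      rw [map_smul, AG.biorth, if_neg, smul_zero]
      intro h'
      exact hb (by rw [h', Equiv.symm_apply_apply])
    · intro h'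
      exact absurd (Finset.mem_range.2 hN) h'
  refine ⟨AG.X, inferInstance, inferInstance, inferInstance, ?_, AG.e, ?_, ?_, ?_⟩
  · have h1 : TopologicalSpace.IsSeparable
        ((Submodule.span ℝ (Set.range AG.e) : Submodule ℝ AG.X) : Set AG.X) :=
      (Set.countable_range AG.e).isSeparable.span
    have h2 := h1.closure
    rw [AG.dense_span.closure_eq] at h2
    exact TopologicalSpace.isSeparable_univ_iff.1 h2
  · -- minimality
    intro m hm
    have h1 : closure ((Submodule.span ℝ (AG.e '' {n | n ≠ m}) : Submodule ℝ AG.X) : Set AG.X) ⊆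
        {v | AG.e' m v = 0} := by
      apply closure_minimal
      · intro v hv
        have : Submodule.span ℝ (AG.e '' {n | n ≠ m}) ≤ LinearMap.ker (AG.e' m).toLinearMap := by
          rw [Submodule.span_le]
          rintro _ ⟨n, hn, rfl⟩
          change AG.e' m (AG.e n) = 0
          rw [AG.biorth, if_neg (Ne.symm hn)]
        exact this hv
      · exact isClosed_eq (AG.e' m).continuous continuous_const
    have h2 : AG.e' m (AG.e m) = 0 := h1 hm
    rw [AG.biorth, if_pos rfl] at h2
    exact one_ne_zero h2
  · -- property (U)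
    intro v
    obtain ⟨σ, hσ⟩ := Q101.Greedy.exists_expansion AG.e AG.e' AG.biorth AG.dense_span 1
      (fun j x => by rw [one_mul]; exact AG.abs_e'_le j x) 11 (by norm_num)
      (fun x A hA => by
        have h := AG.almost_greedy x A ∅ (fun i hi j hj => by
          rw [Real.norm_eq_abs, Real.norm_eq_abs]; exact hA i hi j hj) (by simp)
        simpa using h) v
    refine ⟨fun n => AG.e' n v, ⟨σ, hσ⟩, ?_⟩
    rintro b ⟨π, hπ⟩
    funext n
    exact key b π v hπ n
  · -- no permutation is a basis
    intro τ hτ
    apply AG.no_order τ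
    intro v
    obtain ⟨a, ha, _⟩ := hτ v
    have h1 : ∀ n, a (τ.symm n) = AG.e' n v := by
      apply key (fun n => a (τ.symm n)) τ v
      simpa using ha
    have h2 : (fun N => ∑ n ∈ Finset.range N, a n • AG.e (τ n)) =
        fun N => ∑ k ∈ Finset.range N, AG.e' (τ k) v • AG.e (τ k) := by
      funext N
      apply Finset.sum_congr rfl
      intro k _
      rw [← h1 (τ k), Equiv.symm_apply_apply]
    rw [← h2]
    exact ha

end Pool.Agent.Results.MP_514f39_an.PermutedExpansions
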